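import Pool.Agent.Helper5.SX.St

/-!
# Project SX (MP_7b75b3_co), module BDB (number of bad blocks)
-/

namespace Pool.Agent.Helper8.SX

open _root_.SX
open Finset
open scoped Classical

theorem hBDB : StBFB → StEXS → StBDB := by
  intro hBFB hEXS V _ A c y l t0 t1 hst hl
  obtain ⟨huK, hKS, hSm, hKMcard, hKcen, hcenK, hcencard, hls, hKcard, hKadj⟩ :=
    hBFB V A c y l hst hl
  have hexs := hEXS V A c y l hst
  set S := Sb A c y l with hS
  -- the sum of kap
  have hkap : ∑ B ∈ S, kap A y l B ≤ l - 1 := by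
    have e1 : ∀ B ∈ S, kap A y l B = ∑ i ∈ Ico 1 l, if A.b (y i) = B then 1 else 0 := by
      intro B _
      unfold kap
      rw [Finset.card_filter]
    rw [Finset.sum_congr rfl e1, Finset.sum_comm]
    calc ∑ i ∈ Ico 1 l, ∑ B ∈ S, (if A.b (y i) = B then 1 else 0)
        ≤ ∑ i ∈ Ico 1 l, 1 := by
          refine Finset.sum_le_sum fun i _ => ?_
          rw [Finset.sum_ite_eq]
          split_ifs <;> omega
      _ = l - 1 := by rw [Finset.sum_const, Nat.card_Ico, smul_eq_mul, mul_one]
  -- the sum of the cardinalities of Xb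
  have hX : (t0 + 1) * ∑ B ∈ S, (Xb A c y l t0 B).card ≤ A.D * (l - 1) := by
    have hdj : ∀ B ∈ S, ∀ B' ∈ S, B ≠ B' → Disjoint (Xb A c y l t0 B) (Xb A c y l t0 B') := by
      intro B _ B' _ hne
      rw [Finset.disjoint_left]
      intro x hx hx'
      have h1 := (Finset.mem_filter.mp (Finset.mem_filter.mp hx).1).2.1
      have h2 := (Finset.mem_filter.mp (Finset.mem_filter.mp hx').1).2.1
      exact hne (h1.symm.trans h2)
    rw [← Finset.card_biUnion hdj]
    calc (t0 + 1) * (S.biUnion fun B => Xb A c y l t0 B).card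
        = ∑ x ∈ S.biUnion (fun B => Xb A c y l t0 B), (t0 + 1) := by
          rw [Finset.sum_const, smul_eq_mul, mul_comm]
      _ ≤ ∑ x ∈ S.biUnion (fun B => Xb A c y l t0 B), exc A c y l x := by
          refine Finset.sum_le_sum fun x hx => ?_
          obtain ⟨B, _, hxB⟩ := Finset.mem_biUnion.mp hx
          have := (Finset.mem_filter.mp hxB).2
          omega
      _ ≤ ∑ x, exc A c y l x := Finset.sum_le_sum_of_subset (Finset.subset_univ _)
      _ ≤ A.D * (l - 1) := hexs
  -- bad blocks
  have hbad : (S \ Gd A c y l t0 t1).card * t1 ≤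
      ∑ B ∈ S, (kap A y l B + (Xb A c y l t0 B).card) := by
    calc (S \ Gd A c y l t0 t1).card * t1 = ∑ B ∈ S \ Gd A c y l t0 t1, t1 := by
          rw [Finset.sum_const, smul_eq_mul]
      _ ≤ ∑ B ∈ S \ Gd A c y l t0 t1, (kap A y l B + (Xb A c y l t0 B).card) := by
          refine Finset.sum_le_sum fun B hB => ?_
          rw [Finset.mem_sdiff] at hB
          by_contra hcon
          apply hB.2
          unfold Gd
          rw [Finset.mem_filter]
          exact ⟨hB.1, by omega⟩
      _ ≤ _ := Finset.sum_le_sum_of_subset Finset.sdiff_subset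
  rw [Finset.sum_add_distrib] at hbad
  set bad := (S \ Gd A c y l t0 t1).card with hbaddef
  set XX := ∑ B ∈ S, (Xb A c y l t0 B).card with hXX
  have hls' : l - 1 ≤ S.card := by omega
  calc bad * t1 * (t0 + 1) ≤ ((l - 1) + XX) * (t0 + 1) :=
        Nat.mul_le_mul_right _ (le_trans hbad (by omega))
    _ = (t0 + 1) * (l - 1) + (t0 + 1) * XX := by ring
    _ ≤ (t0 + 1) * (l - 1) + A.D * (l - 1) := by omega
    _ = (t0 + 1 + A.D) * (l - 1) := by ring
    _ ≤ (t0 + 1 + A.D) * S.card := Nat.mul_le_mul_left _ hls'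

end Pool.Agent.Helper8.SX
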