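import Pool.Agent.Helper5.SX.St

/-!
# Project SX (MP_7b75b3_co), module CZ (Claim 0)
-/

namespace Pool.Agent.Helper8.SX

open _root_.SX
open Finset
open scoped Classical

theorem hCZ : StBFA → StVAL → StSWU → StREC → StCZ := by
  intro hBFA hVAL hSWU hREC V _ A c y l hmx
  have hst := hmx.st
  have hl : 0 < l := by
    by_contra hl0
    have hl0' : l = 0 := by omega
    subst hl0'
    have hne : (Lf A c A.u).Nonempty := by
      by_contra h
      rw [Finset.not_nonempty_iff_eq_empty] at h
      exact hSWU V A c A.u hst.base rfl (Or.inl rfl) h
    have hst1 : St A c y (0 + 1) := by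
      refine ⟨hst.base, hst.zero, ?_, ?_, ?_, ?_⟩
      · intro i hi
        have hi0 : i = 0 := by omega
        subst hi0
        rw [hst.zero]
        unfold Sb
        exact Finset.mem_insert_self _ _
      · intro i hi
        have hi0 : i = 0 := by omega
        subst hi0
        exact Or.inl hst.zero
      · intro i hi z _
        have hi0 : i = 0 := by omega
        subst hi0
        simp [Kset]
      · intro i hi
        have hi0 : i = 0 := by omega
        subst hi0
        rw [hst.zero]
        exact hne
    have h1 := (hVAL V A).2 c y y 0 (fun i hi => rfl)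
    have h2 := hmx.top c y (0 + 1) hst1
    omega
  refine ⟨hl, fun v hb hav => ?_⟩
  by_contra hcon
  have hnd : ∀ z ∈ A.N v, z ∉ Kset A c y l := fun z hz hzK => hcon ⟨z, hz, hzK⟩
  by_cases hlf : Lf A c v = ∅
  · obtain ⟨c', j, hjl, hst', heq, hlt⟩ := hREC V A y l c v hst hb hav hlf hnd
    have h1 := (hVAL V A).1 c c' y l j (hBFA V A c y l hst).2.2.2.2.1 hjl heq hlt
    have h2 := hmx.top c' y (j + 1) hst'
    omega
  · have hy : ∀ i < l, Function.update y l v i = y i := by
      intro i hi
      rw [Function.update_of_ne (by omega)]
    have hyl : Function.update y l v l = v := Function.update_self _ _ _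
    have hK : ∀ i ≤ l, Kset A c (Function.update y l v) i = Kset A c y i := by
      intro i hi
      unfold Kset
      refine Finset.biUnion_congr rfl fun t ht => ?_
      rw [hy t (by have := Finset.mem_range.mp ht; omega)]
    have hS : ∀ i ≤ l, Sb A c (Function.update y l v) i = Sb A c y i := by
      intro i hi
      unfold Sb
      congr 1
      congr 1
      refine Finset.biUnion_congr rfl fun t ht => ?_
      rw [hy t (by have := Finset.mem_range.mp ht; omega)]
    have hst1 : St A c (Function.update y l v) (l + 1) := by
      refine ⟨hst.base, by rw [hy 0 hl]; exact hst.zero, ?_, ?_, ?_, ?_⟩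
      · intro i hi
        rw [hS i (by omega)]
        rcases Nat.lt_succ_iff_lt_or_eq.mp hi with h | h
        · rw [hy i h]; exact hst.inS i h
        · rw [h, hyl]; exact hb
      · intro i hi
        rcases Nat.lt_succ_iff_lt_or_eq.mp hi with h | h
        · rw [hy i h]; exact hst.av i h
        · rw [h, hyl]; exact hav
      · intro i hi
        rw [hK i (by omega)]
        rcases Nat.lt_succ_iff_lt_or_eq.mp hi with h | h
        · rw [hy i h]; exact hst.und i h
        · rw [h, hyl]; exact hnd
      · intro i hi
        rcases Nat.lt_succ_iff_lt_or_eq.mp hi with h | h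
        · rw [hy i h]; exact hst.lf i h
        · rw [h, hyl]; exact Finset.nonempty_iff_ne_empty.mpr hlf
    have h1 := (hVAL V A).2 c y (Function.update y l v) l hy
    have h2 := hmx.top c (Function.update y l v) (l + 1) hst1
    omega

end Pool.Agent.Helper8.SX
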