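import Pool.Agent.Helper5.SX.St

/-!
# Project SX (MP_7b75b3_co), module EXM (existence of minimal states)
-/

namespace Pool.Agent.Helper8.SX

open _root_.SX
open Finset
open scoped Classical

private theorem exmax {α : Type*} (P : α → Prop) (f : α → ℕ) (B : ℕ) (h0 : ∃ a, P a)
    (hB : ∀ a, P a → f a ≤ B) : ∃ a, P a ∧ ∀ b, P b → f b ≤ f a := by
  obtain ⟨a0, ha0⟩ := h0
  have hex : ∃ m, ∃ a, P a ∧ B - f a = m := ⟨_, a0, ha0, rfl⟩
  obtain ⟨a, ha, hm⟩ := Nat.find_spec hex
  refine ⟨a, ha, fun b hb => ?_⟩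
  have h1 := Nat.find_min' hex ⟨b, hb, rfl⟩
  have h2 := hB a ha
  have h3 := hB b hb
  omega

private theorem exmin {α : Type*} (P : α → Prop) (f : α → ℕ) (h0 : ∃ a, P a) :
    ∃ a, P a ∧ ∀ b, P b → f a ≤ f b := by
  obtain ⟨a0, ha0⟩ := h0
  have hex : ∃ m, ∃ a, P a ∧ f a = m := ⟨_, a0, ha0, rfl⟩
  obtain ⟨a, ha, hm⟩ := Nat.find_spec hex
  refine ⟨a, ha, fun b hb => ?_⟩
  have h1 := Nat.find_min' hex ⟨b, hb, rfl⟩
  omega

private theorem valle {V : Type} [Fintype V] (A : Dat V) (c : V → ℕ) (y : ℕ → V) (l : ℕ)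
    (hl : l ≤ Fintype.card V) :
    _root_.SX.val A c y l ≤ Fintype.card V * ((Fintype.card V + 1) * (Fintype.card V + 2) ^ Fintype.card V) := by
  unfold _root_.SX.val
  calc ∑ i ∈ range l, (Fintype.card V + 1 - (Lf A c (y i)).card) *
        (Fintype.card V + 2) ^ (Fintype.card V - i)
      ≤ ∑ i ∈ range l, (Fintype.card V + 1) * (Fintype.card V + 2) ^ Fintype.card V := by
        refine Finset.sum_le_sum fun i _ => ?_
        apply Nat.mul_le_mul
        · omega
        · exact Nat.pow_le_pow_right (by omega) (by omega)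
    _ = l * ((Fintype.card V + 1) * (Fintype.card V + 2) ^ Fintype.card V) := by
        rw [Finset.sum_const, Finset.card_range, smul_eq_mul]
    _ ≤ _ := Nat.mul_le_mul_right _ hl

theorem hEXM : StBFA → StEXM := by
  intro hBFA V _ A hno
  -- a labelling with the maximum number of coloured vertices
  have hex : ∃ c : V → ℕ, Lab A c := by
    refine ⟨fun v => A.k + ((Fintype.equivFin V) v : ℕ), ⟨?_, ?_⟩⟩
    · intro v w _ h
      have h1 : ((Fintype.equivFin V) v : ℕ) = ((Fintype.equivFin V) w : ℕ) := by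
        have h' : A.k + ((Fintype.equivFin V) v : ℕ) = A.k + ((Fintype.equivFin V) w : ℕ) := h
        omega
      exact (Fintype.equivFin V).injective (Fin.ext h1)
    · intro v w _ _
      show A.k ≤ A.k + ((Fintype.equivFin V) v : ℕ)
      omega
  obtain ⟨c, hc, hcmax⟩ := exmax (fun c : V → ℕ => Lab A c) (fun c => cnt A c) (Fintype.card V) hex
    (fun c _ => Finset.card_le_univ _)
  obtain ⟨u, hu⟩ := hno c hc
  have hal : ∃ al, al < A.k ∧ ∀ v, A.b v = A.b u → c v ≠ al := by
    by_contra hcon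
    push Not at hcon
    have hsub : insert (c u) (range A.k) ⊆ (univ.filter (fun w => A.b w = A.b u)).image c := by
      intro a ha
      rw [Finset.mem_insert] at ha
      rcases ha with rfl | ha
      · exact Finset.mem_image_of_mem c (by simp)
      · obtain ⟨v, hv, hva⟩ := hcon a (Finset.mem_range.mp ha)
        exact Finset.mem_image.mpr ⟨v, by simp [hv], hva⟩
    have h1 := Finset.card_le_card hsub
    have h2 : ((univ.filter (fun w => A.b w = A.b u)).image c).card ≤ A.k :=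
      le_trans Finset.card_image_le (A.blk u).le
    have h3 : (insert (c u) (range A.k)).card = A.k + 1 := by
      rw [Finset.card_insert_of_notMem, Finset.card_range]
      simp only [Finset.mem_range, not_lt]
      exact hu
    omega
  obtain ⟨al, halk, hmiss⟩ := hal
  let A' : Dat V := { toSys := A, u := u, al := al }
  have hbase : Base A' c := ⟨hc, hu, halk, hmiss, fun c' hc' => hcmax c' hc'⟩
  have hst0 : St A' c (fun _ => u) 0 :=
    ⟨hbase, rfl, fun i hi => absurd hi (by omega), fun i hi => absurd hi (by omega),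
      fun i hi => absurd hi (by omega), fun i hi => absurd hi (by omega)⟩
  obtain ⟨⟨c1, y, l⟩, hst1, hmax1⟩ := exmax
    (fun p : (V → ℕ) × (ℕ → V) × ℕ => St A' p.1 p.2.1 p.2.2)
    (fun p => _root_.SX.val A' p.1 p.2.1 p.2.2)
    (Fintype.card V * ((Fintype.card V + 1) * (Fintype.card V + 2) ^ Fintype.card V))
    ⟨⟨c, fun _ => u, 0⟩, hst0⟩
    (fun p hp => valle A' p.1 p.2.1 p.2.2 (hBFA V A' p.1 p.2.1 p.2.2 hp).2.2.2.2.1)
  have hM : MaxSt A' c1 y l := ⟨hst1, fun c' y' l' h => hmax1 ⟨c', y', l'⟩ h⟩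
  obtain ⟨c2, hc2, hmin2⟩ := exmin (fun c' : V → ℕ => MaxSt A' c' y l)
    (fun c' => (Tg A' c' y l).card) ⟨c1, hM⟩
  exact ⟨A', c2, y, l, rfl, ⟨hc2, hmin2⟩⟩

end Pool.Agent.Helper8.SX
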