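import Pool.Agent.Helper5.SX.St

/-!
# Project SX (MP_7b75b3_co), module FNA (linear programming)
-/

namespace Pool.Agent.Helper8.SX

open _root_.SX
open Finset
open scoped Classical

theorem hFNA : StPB → StFNA := by
  intro hPB D k t0 t1 S G T q sg r h l n a v ρ hN hD ht1 hk3 hbig hρ hx
  have hs : (0 : ℝ) < (S.card : ℝ) := by
    exact_mod_cast Finset.card_pos.mpr hN.ne
  have hρ0 : 0 ≤ ρ := by linarith
  have hDr : (0 : ℝ) < D := by exact_mod_cast hD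
  have ht1r : (0 : ℝ) < t1 := by exact_mod_cast ht1
  have ht0r : (0 : ℝ) ≤ t0 := Nat.cast_nonneg _
  have hk3r : (k : ℝ) ≤ 3 * D := by exact_mod_cast hk3
  have hbigr : 2 * (D : ℝ) + t0 + t1 < k := by exact_mod_cast hbig
  have hkr : (0 : ℝ) ≤ k := Nat.cast_nonneg _
  -- the bad blocks
  have hcard : ((S \ G).card : ℝ) + (G.card : ℝ) = (S.card : ℝ) := by
    have := Finset.card_sdiff_add_card_eq_card hN.sub
    exact_mod_cast this
  have hbd0 : (0 : ℝ) ≤ ((S \ G).card : ℝ) := Nat.cast_nonneg _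
  set s : ℝ := (S.card : ℝ) with hsdef
  set bd : ℝ := ((S \ G).card : ℝ) with hbddef
  have hg0 : (0 : ℝ) ≤ (G.card : ℝ) := Nat.cast_nonneg _
  -- ful
  have hful : (k : ℝ) * s ≤ 2 * D * s + q := by
    have := hN.ful
    rw [hsdef]
    exact_mod_cast this
  -- cci
  have hcci : ∑ B ∈ G, ((r B : ℝ) - h B) + sg ≤ 2 * D * s + ∑ B ∈ G, (n B : ℝ) := by
    have h1 := hN.cci
    have h2 : ((∑ B ∈ G, (r B - h B) + sg : ℕ) : ℝ) ≤
        ((2 * D * S.card + ∑ B ∈ G, n B : ℕ) : ℝ) := by exact_mod_cast h1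
    push_cast at h2
    have h3 : ∑ B ∈ G, ((r B - h B : ℕ) : ℝ) = ∑ B ∈ G, ((r B : ℝ) - h B) := by
      refine Finset.sum_congr rfl fun B hB => ?_
      have h4 := (hN.good B hB).2.2.2
      rw [Nat.cast_sub (by omega)]
    rw [h3] at h2
    exact h2
  -- siw
  have hsiw : (sg : ℝ) + ∑ B ∈ T, (l B : ℝ) ≤ D * s := by
    have h1 := hN.siw
    have h2 : ((sg + ∑ B ∈ T, l B : ℕ) : ℝ) ≤ ((D * S.card : ℕ) : ℝ) := by exact_mod_cast h1
    push_cast at h2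
    exact h2
  -- nct
  have hnct : ∑ B ∈ T, (v B : ℝ) + 2 * q ≤ 2 * sg := by
    have h1 := hN.nct
    have h2 : ((∑ B ∈ T, v B + 2 * q : ℕ) : ℝ) ≤ ((2 * sg : ℕ) : ℝ) := by exact_mod_cast h1
    push_cast at h2
    exact h2
  -- bad
  have hbad : bd * t1 * (t0 + 1) ≤ (t0 + 1 + D) * s := by
    have h1 := hN.bad
    have h2 : (((S \ G).card * t1 * (t0 + 1) : ℕ) : ℝ) ≤ (((t0 + 1 + D) * S.card : ℕ) : ℝ) := by
      exact_mod_cast h1
    push_cast at h2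
    exact h2
  -- (2)
  have hRG : ((k : ℝ) - t1) * G.card ≤ ∑ B ∈ G, (r B : ℝ) := by
    rw [mul_comm, ← nsmul_eq_mul, ← Finset.sum_const]
    refine Finset.sum_le_sum fun B hB => ?_
    have h1 := (hN.good B hB).1
    have h2 : (k : ℝ) ≤ r B + t1 := by exact_mod_cast h1
    linarith
  -- (4)
  have hG1 : ∑ B ∈ G, ((h B : ℝ) + n B) ≤
      ((D : ℝ) + t0) * G.card + ∑ B ∈ T, ((h B : ℝ) + n B - (D + t0)) := by
    have h1 : ∑ B ∈ G, ((h B : ℝ) + n B) =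
        ((D : ℝ) + t0) * G.card + ∑ B ∈ G, ((h B : ℝ) + n B - (D + t0)) := by
      rw [Finset.sum_sub_distrib, Finset.sum_const, nsmul_eq_mul]
      ring
    have h2 : ∑ B ∈ G, ((h B : ℝ) + n B - (D + t0)) =
        ∑ B ∈ G \ T, ((h B : ℝ) + n B - (D + t0)) + ∑ B ∈ T, ((h B : ℝ) + n B - (D + t0)) :=
      (Finset.sum_sdiff hN.sub2).symm
    have h3 : ∑ B ∈ G \ T, ((h B : ℝ) + n B - (D + t0)) ≤ 0 := by
      refine Finset.sum_nonpos fun B hB => ?_
      rw [Finset.mem_sdiff] at hB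
      have h4 := hN.one B hB.1 hB.2
      have h5 : (h B : ℝ) + n B ≤ D + t0 := by exact_mod_cast h4
      linarith
    rw [h1, h2]
    linarith
  -- (5)
  have hT1 : ∑ B ∈ T, ((h B : ℝ) + n B - (D + t0)) ≤
      ρ * ∑ B ∈ T, (l B : ℝ) + 2 / 3 * ∑ B ∈ T, (v B : ℝ) := by
    rw [Finset.mul_sum, Finset.mul_sum, ← Finset.sum_add_distrib]
    refine Finset.sum_le_sum fun B hB => ?_
    obtain ⟨g1, g2, g3, g4⟩ := hN.good B (hN.sub2 hB)
    obtain ⟨w1, w2, w3⟩ := hN.two B hB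
    have g1' : (k : ℝ) ≤ r B + t1 := by exact_mod_cast g1
    have g2' : (r B : ℝ) ≤ k := by exact_mod_cast g2
    have g3' : (h B : ℝ) ≤ D + t0 := by exact_mod_cast g3
    have g4' : (h B : ℝ) + n B + l B ≤ r B := by exact_mod_cast g4
    have w1' : (n B : ℝ) = a B + v B := by exact_mod_cast w1
    have w2' : (r B : ℝ) ≤ l B + 2 * D + t0 := by exact_mod_cast w2
    have w3' : (a B : ℝ) * r B + l B * h B ≤ l B * (D + t0) + a B * (2 * D + t0) := by
      exact_mod_cast w3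
    have hv0 : (0 : ℝ) ≤ v B := Nat.cast_nonneg _
    have hh0 : (0 : ℝ) ≤ h B := Nat.cast_nonneg _
    have hp := hPB D (D + t0) (r B) (h B) (l B) (a B) (v B) ρ hDr.le (by linarith) hh0 g3' hv0
      (by linarith) (by linarith) (by nlinarith) (by linarith) (by linarith)
      (hx (r B) (by linarith))
    rw [w1']
    linarith
  have hsplit : ∑ B ∈ G, ((r B : ℝ) - h B) = ∑ B ∈ G, (r B : ℝ) - ∑ B ∈ G, (h B : ℝ) :=
    Finset.sum_sub_distrib _ _
  have hsplit2 : ∑ B ∈ G, ((h B : ℝ) + n B) = ∑ B ∈ G, (h B : ℝ) + ∑ B ∈ G, (n B : ℝ) :=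
    Finset.sum_add_distrib
  have hW0 : 0 ≤ ∑ B ∈ T, (v B : ℝ) := Finset.sum_nonneg fun B _ => Nat.cast_nonneg _
  set X := ∑ B ∈ T, (l B : ℝ) with hX
  set W := ∑ B ∈ T, (v B : ℝ) with hW
  have hG2 : (G.card : ℝ) = s - bd := by linarith
  have hGs : ((D : ℝ) + t0) * G.card ≤ ((D : ℝ) + t0) * s :=
    mul_le_mul_of_nonneg_left (by linarith) (by linarith)
  have hRG2 : (k : ℝ) * s - t1 * s - k * bd ≤ ∑ B ∈ G, (r B : ℝ) := by
    rw [hG2] at hRG
    have e : ((k : ℝ) - t1) * (s - bd) = k * s - t1 * s - k * bd + t1 * bd := by ring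
    rw [e] at hRG
    have e2 := mul_nonneg ht1r.le hbd0
    linarith
  have hρX : ρ * X ≤ ρ * (3 * D * s - k * s - (sg - q)) :=
    mul_le_mul_of_nonneg_left (by linarith) hρ0
  have hw0 : (0 : ℝ) ≤ (sg : ℝ) - q := by linarith
  have hmain : 2 * ((k : ℝ) * s) ≤ (5 * D + t0 + t1) * s + k * bd + ρ * (3 * D - k) * s := by
    have e1 : ρ * (3 * D * s - k * s - (sg - q)) = ρ * (3 * D - k) * s - ρ * (sg - q) := by ring
    rw [e1] at hρX
    have e2 := mul_nonneg hw0 (sub_nonneg.mpr hρ)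
    have e3 : ((sg : ℝ) - q) * (ρ - 1 / 3) = ρ * (sg - q) - (sg - q) / 3 := by ring
    rw [e3] at e2
    have e4 : (5 * (D : ℝ) + t0 + t1) * s = 4 * (D * s) + t1 * s + (D + t0) * s := by ring
    rw [e4]
    have e5 : 2 * (D : ℝ) * s = 2 * (D * s) := by ring
    rw [e5] at hful hcci
    linarith
  have hq : (0 : ℝ) < t1 * (t0 + 1) := by positivity
  have hkbd : (k : ℝ) * bd ≤ k * (t0 + 1 + D) / (t1 * (t0 + 1)) * s := by
    rw [div_mul_eq_mul_div, le_div_iff₀ hq]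
    have := mul_le_mul_of_nonneg_left hbad hkr
    linarith
  have hfin : (2 * (k : ℝ)) * s ≤ (5 * D + t0 + t1 + ρ * (3 * D - k) +
      k * (t0 + 1 + D) / (t1 * (t0 + 1))) * s := by
    linarith
  exact le_of_mul_le_mul_right hfin hs

end Pool.Agent.Helper8.SX
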