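import Pool.Agent.Helper5.SX.St

/-!
# Project SX (MP_7b75b3_co), module REC
-/

namespace Pool.Agent.Helper8.SX

open _root_.SX
open Finset
open scoped Classical

theorem hREC : StSWU → StSWO → StREC := by
  intro hSWU hSWO V _ A y l
  induction l using Nat.strong_induction_on with
  | _ l ih =>
    intro c v hst hb hav hlf hnd
    by_cases hbu : A.b v = A.b A.u
    · exact (hSWU V A c v hst.base hbu hav hlf).elim
    · obtain ⟨c', j, hjl, hst', heq, hlt, hav', hb', hnd'⟩ :=
        hSWO V A c y l v hst hbu hb hav hlf hnd
      by_cases hne : (Lf A c' (y j)).Nonempty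
      · refine ⟨c', j, hjl, ⟨hst'.base, hst'.zero, ?_, ?_, ?_, ?_⟩,
          fun i hi => by rw [heq i hi], hlt⟩
        · intro i hi
          rcases Nat.lt_succ_iff_lt_or_eq.mp hi with h | h
          · exact hst'.inS i h
          · rw [h]; exact hb'
        · intro i hi
          rcases Nat.lt_succ_iff_lt_or_eq.mp hi with h | h
          · exact hst'.av i h
          · rw [h]; exact hav'
        · intro i hi
          rcases Nat.lt_succ_iff_lt_or_eq.mp hi with h | h
          · exact hst'.und i h
          · rw [h]; exact hnd'
        · intro i hi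
          rcases Nat.lt_succ_iff_lt_or_eq.mp hi with h | h
          · exact hst'.lf i h
          · rw [h]; exact hne
      · rw [Finset.not_nonempty_iff_eq_empty] at hne
        obtain ⟨c'', j', hj'j, hst'', heq'', hlt''⟩ := ih j hjl c' (y j) hst' hb' hav' hne hnd'
        refine ⟨c'', j', by omega, hst'', fun i hi => ?_, ?_⟩
        · rw [heq'' i hi, heq i (by omega)]
        · rw [← heq j' hj'j]; exact hlt''

end Pool.Agent.Helper8.SX
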