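import Pool.Agent.Helper5.SX.St

/-!
# Project SX (MP_7b75b3_co), module RPC (composition of a block)
-/

namespace Pool.Agent.Helper8.SX

open _root_.SX
open Finset
open scoped Classical

theorem hRPC : StBFA → StBFB → StRPC := by
  intro hBFA hBFB V _ A c y l t0 hst hl B hB
  obtain ⟨hmk, hdisj, hinj, hnm, hlV, hmono, hfresh⟩ := hBFA V A c y l hst
  obtain ⟨huK, hKS, hSm, hKMcard, hKcen, hcenK, hcencard, hls, hKcard, hKadj⟩ :=
    hBFB V A c y l hst hl
  obtain ⟨m, hm, hmB⟩ := hSm B hB
  have hmMk : m ∈ Mk A c := (Finset.mem_filter.mp hm).2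
  have hblk := A.blk m
  rw [hmB] at hblk
  -- marks
  have h1 := Finset.card_filter_add_card_filter_not (s := univ.filter (fun w => A.b w = B))
    (fun w => w ∈ Mk A c)
  have h1a : ((univ.filter (fun w => A.b w = B)).filter (fun w => w ∈ Mk A c)).card = 1 := by
    rw [Finset.card_eq_one]
    refine ⟨m, ?_⟩
    ext w
    simp only [Finset.mem_filter, Finset.mem_univ, true_and, Finset.mem_singleton]
    constructor
    · rintro ⟨hwB, hwM⟩
      exact hmk w hwM m hmMk (by rw [hwB, hmB])
    · rintro rfl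
      exact ⟨hmB, hmMk⟩
  -- centres
  have h2 := Finset.card_filter_add_card_filter_not
    (s := (univ.filter (fun w => A.b w = B)).filter (fun w => ¬ w ∈ Mk A c))
    (fun w => w ∈ Cen y l)
  have h2a : (((univ.filter (fun w => A.b w = B)).filter (fun w => ¬ w ∈ Mk A c)).filter
      (fun w => w ∈ Cen y l)).card = kap A y l B := by
    have e1 : (((univ.filter (fun w => A.b w = B)).filter (fun w => ¬ w ∈ Mk A c)).filter
        (fun w => w ∈ Cen y l)) = ((Ico 1 l).filter (fun i => A.b (y i) = B)).image y := by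
      ext w
      simp only [Finset.mem_filter, Finset.mem_univ, true_and, Finset.mem_image]
      constructor
      · rintro ⟨⟨hwB, _⟩, hwC⟩
        obtain ⟨i, hi, rfl⟩ := Finset.mem_image.mp hwC
        exact ⟨i, ⟨hi, hwB⟩, rfl⟩
      · rintro ⟨i, ⟨hi, hiB⟩, rfl⟩
        have hC : y i ∈ Cen y l := Finset.mem_image_of_mem y hi
        exact ⟨⟨hiB, (hcenK _ hC).2⟩, hC⟩
    rw [e1, Finset.card_image_of_injOn]
    · rfl
    · intro i hi j hj hij
      rw [Finset.mem_coe, Finset.mem_filter, Finset.mem_Ico] at hi hj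
      exact hinj i hi.1.2 j hj.1.2 hij
  have h2b : (((univ.filter (fun w => A.b w = B)).filter (fun w => ¬ w ∈ Mk A c)).filter
      (fun w => ¬ w ∈ Cen y l)) = Rb A c y l B := by
    unfold Rb
    ext w
    simp only [Finset.mem_filter, Finset.mem_univ, true_and]
    tauto
  rw [h2a, h2b] at h2
  -- excess
  have h3 := Finset.card_filter_add_card_filter_not (s := Rb A c y l B)
    (fun x => exc A c y l x ≤ t0)
  have h3a : (Rb A c y l B).filter (fun x => exc A c y l x ≤ t0) = Rp A c y l t0 B := rfl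
  have h3b : (Rb A c y l B).filter (fun x => ¬ exc A c y l x ≤ t0) = Xb A c y l t0 B := by
    unfold Xb
    refine Finset.filter_congr fun x _ => ?_
    rw [not_le]
  rw [h3a, h3b] at h3
  omega

end Pool.Agent.Helper8.SX
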